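import Mathlib
import Pool.Agent.W171.LG.CoreR
import Pool.Agent.H771R4.SE.AllX2

set_option autoImplicit false

/-! # Lenstra's density for the groups `⟨W₀, D n ^ r⟩`, all but `N ^ θ` integers `n ≤ N`

Let `1 / 2 < θ < 1` and `C₀ > 1` with `θ (1 - θ) < C₀ (2 θ - 1)` (any `C₀ > 1` if `θ ≥ 0.6181`).  There is
`c > 0` such that for every finite Galois extension `F / ℚ`, every conjugation-stable `C`, every
finitely generated `W₀ ≤ ℚˣ`, every `k ≥ 1`, every nonzero rational `D`, every `r ≥ 1` such that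
`ℓ ^ (ν_ℓ(k) + 1)` divides `r` for all primes `ℓ ∣ r` (every `r` if `k = 1`; `r = 1` for every `k`),
every `ε > 0` and all large `N`: all but at most `N ^ θ` of the integers `n ≤ N` satisfy, with
`W = ⟨W₀, D n ^ r⟩`, `|S(x) - δ(F, C, W, k) π(x)| ≤ ε π(x)` for EVERY `x` with
`N ^ C₀ ≤ x ≤ exp ((log N) ^ (1 + c))`, where `S(x)` is the number of primes `q ≤ x` in the set of Q1
and `δ` is Lenstra's density.

Libraries: helper401 (density theorem of Chebotarev), helper386, helper771, helper981, helper730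
(large sieve, local counts). -/

namespace Pool.Agent.Results.MP_48b1c3_nt.FewExceptions

open NumberField Finset Filter Classical
open Pool.Agent.W171.LG (coreR few_nongen Gen Sc tW DR gp_eqR)
open Pool.Agent.H771R4.SE (cntE Dat badY allX2)

/-- the number of primes `q ≤ x` in the set of Q1 -/
noncomputable def S (F : IntermediateField ℚ (AlgebraicClosure ℚ)) [NumberField F]
    (C : Set (F ≃ₐ[ℚ] F)) (W : Subgroup ℚˣ) (k x : ℕ) : ℕ :=
  Nat.card {q : ℕ // q ≤ x ∧ q.Prime ∧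
    (∃ σ ∈ C, ∃ Q : Ideal (𝓞 F), Q.IsPrime ∧
        Q.comap (algebraMap ℤ (𝓞 F)) = Ideal.span {(q : ℤ)} ∧
        ∀ a b : 𝓞 F, (b : F) = σ (a : F) → b - a ^ q ∈ Q) ∧
    (∀ w ∈ W, padicValRat q (w : ℚ) = 0) ∧
    (Subgroup.closure {u : (ZMod q)ˣ | ∃ w ∈ W,
        (((w : ℚ).num : ℤ) : ZMod q) = (u : ZMod q) * (((w : ℚ).den : ℕ) : ZMod q)}).index ∣ k}

/-- Lenstra's density -/
noncomputable def δ (F : IntermediateField ℚ (AlgebraicClosure ℚ)) [NumberField F]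
    (C : Set (F ≃ₐ[ℚ] F)) (W : Subgroup ℚˣ) (k : ℕ) : ℝ :=
  ∑' n : ℕ, (ArithmeticFunction.moebius n : ℝ) *
    (Nat.card {σ : F ≃ₐ[ℚ] F // σ ∈ C ∧ ∀ y : F,
        (y : AlgebraicClosure ℚ) ∈ IntermediateField.adjoin ℚ
          {z : AlgebraicClosure ℚ | ∃ w ∈ W,
            z ^ (∏ l ∈ n.primeFactors, l ^ (k.factorization l + 1)) =
              algebraMap ℚ (AlgebraicClosure ℚ) (w : ℚ)} → σ y = y} : ℝ) /
    (Module.finrank ℚ ↥(F ⊔ IntermediateField.adjoin ℚ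
          {z : AlgebraicClosure ℚ | ∃ w ∈ W,
            z ^ (∏ l ∈ n.primeFactors, l ^ (k.factorization l + 1)) =
              algebraMap ℚ (AlgebraicClosure ℚ) (w : ℚ)}) : ℝ)

/-- the condition on the exponents is open -/
lemma smaller (θ C₀ : ℝ) (hθ : 1 / 2 < θ) (hθ1 : θ < 1) (hCθ : θ * (1 - θ) < C₀ * (2 * θ - 1)) :
    ∃ θ' : ℝ, 1 / 2 < θ' ∧ θ' < θ ∧ θ' * (1 - θ') < C₀ * (2 * θ' - 1) := by
  have hcont : ContinuousAt (fun t : ℝ => C₀ * (2 * t - 1) - t * (1 - t)) θ := by fun_prop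
  have h1 : ∀ᶠ t in nhds θ, 0 < C₀ * (2 * t - 1) - t * (1 - t) :=
    hcont.eventually (lt_mem_nhds (by linarith))
  have h2 : ∀ᶠ t in nhds θ, 1 / 2 < t := lt_mem_nhds hθ
  obtain ⟨δ', hδ', hball⟩ := Metric.eventually_nhds_iff.1 (h1.and h2)
  have h3 := hball (y := θ - δ' / 2) (by
    rw [Real.dist_eq, sub_sub_cancel_left, abs_neg, abs_of_pos (by positivity)]
    linarith)
  exact ⟨θ - δ' / 2, h3.2, by linarith, by linarith [h3.1]⟩

theorem result (θ C₀ : ℝ) (hθ : 1 / 2 < θ) (hθ1 : θ < 1) (hC₀ : 1 < C₀)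
    (hCθ : θ * (1 - θ) < C₀ * (2 * θ - 1)) :
    ∃ c : ℝ, 0 < c ∧
      ∀ (F : IntermediateField ℚ (AlgebraicClosure ℚ)) [NumberField F] [IsGalois ℚ F]
        (C : Set (F ≃ₐ[ℚ] F)) (W₀ : Subgroup ℚˣ) (k : ℕ) (D : ℚˣ) (r : ℕ),
        (∀ σ ∈ C, ∀ τ : F ≃ₐ[ℚ] F, τ * σ * τ⁻¹ ∈ C) → W₀.FG → 0 < k →
        0 < r → (∀ l : ℕ, l.Prime → l ∣ r → l ^ (k.factorization l + 1) ∣ r) →
        ∀ ε : ℝ, 0 < ε → ∃ N₀ : ℕ, ∀ N : ℕ, N₀ ≤ N →
          (((Finset.Icc 1 N).filter (fun n : ℕ =>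
            ∃ x : ℕ, ((N : ℝ) ^ C₀ ≤ x ∧ (x : ℝ) ≤ Real.exp ((Real.log N) ^ (1 + c))) ∧
              ε * (Nat.primeCounting x : ℝ) <
                |(S F C (W₀ ⊔ Subgroup.closure {w : ℚˣ | (w : ℚ) = (D : ℚ) * (n : ℚ) ^ r}) k x : ℝ) -
                  δ F C (W₀ ⊔ Subgroup.closure {w : ℚˣ | (w : ℚ) = (D : ℚ) * (n : ℚ) ^ r}) k *
                    (Nat.primeCounting x : ℝ)|)).card : ℝ) ≤ (N : ℝ) ^ θ := by
  obtain ⟨θ', hθ'2, hθ'θ, hCθ'⟩ := smaller θ C₀ hθ hθ1 hCθ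
  obtain ⟨c, hc, hall⟩ := allX2 θ' C₀ hθ'2 (by linarith) hC₀ hCθ'
  refine ⟨c, hc, ?_⟩
  intro F _ _ C W₀ k D r hC hW₀ hk hr hrk ε hε
  obtain ⟨d, hd⟩ := coreR F C W₀ k D hC hW₀ hk.ne' hr hrk
  obtain ⟨P0, x0, hcore⟩ := hd ε hε
  obtain ⟨N₁, hN₁⟩ := hall d (ε / 2) (by positivity)
  obtain ⟨K, hK, hfew⟩ := few_nongen P0
  set s : ℝ := (θ - 1 / 2) / 2 with hs
  have hs0 : 0 < s := by
    rw [hs]
    linarith
  have e1 : ∀ᶠ N : ℝ in atTop, 2 ≤ N ^ (θ - θ') :=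
    (tendsto_rpow_atTop (by linarith)).eventually_ge_atTop _
  have e2 : ∀ᶠ N : ℝ in atTop, 4 * K ≤ N ^ s :=
    (tendsto_rpow_atTop hs0).eventually_ge_atTop _
  have e3 : ∀ᶠ N : ℝ in atTop, Real.log N ≤ N ^ s := by
    have h := (isLittleO_log_rpow_atTop (r := s) hs0).bound (c := 1) (by norm_num)
    filter_upwards [h, eventually_gt_atTop 1] with x h1 h2
    rw [Real.norm_of_nonneg (Real.log_nonneg h2.le), Real.norm_of_nonneg (by positivity),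
      one_mul] at h1
    exact h1
  obtain ⟨N₂, hN₂⟩ := eventually_atTop.1 ((tendsto_natCast_atTop_atTop (R := ℝ)).eventually
    ((e1.and e2).and e3))
  refine ⟨max (max N₁ N₂) (max x0 2), fun N hN => ?_⟩
  have hA1 : N₁ ≤ N := (le_max_left _ _).trans ((le_max_left _ _).trans hN)
  have hA2 : N₂ ≤ N := (le_max_right _ _).trans ((le_max_left _ _).trans hN)
  have hA3 : x0 ≤ N := (le_max_left _ _).trans ((le_max_right _ _).trans hN)
  have hA4 : 2 ≤ N := (le_max_right _ _).trans ((le_max_right _ _).trans hN)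
  have hN2 : (2 : ℝ) ≤ N := by exact_mod_cast hA4
  have hN0 : (0 : ℝ) < N := by linarith
  have hN1 : (1 : ℝ) ≤ N := by linarith
  obtain ⟨⟨k1, k2⟩, k3⟩ := hN₂ N hA2
  have k4 := hN₁ N hA1
  have k5 := hfew N (by omega)
  set B := (Finset.Icc 1 N).filter (fun n : ℕ =>
            ∃ x : ℕ, ((N : ℝ) ^ C₀ ≤ x ∧ (x : ℝ) ≤ Real.exp ((Real.log N) ^ (1 + c))) ∧
              ε * (Nat.primeCounting x : ℝ) <
                |(S F C (W₀ ⊔ Subgroup.closure {w : ℚˣ | (w : ℚ) = (D : ℚ) * (n : ℚ) ^ r}) k x : ℝ) -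
                  δ F C (W₀ ⊔ Subgroup.closure {w : ℚˣ | (w : ℚ) = (D : ℚ) * (n : ℚ) ^ r}) k *
                    (Nat.primeCounting x : ℝ)|) with hB
  have hsub : B ⊆ badY d (ε / 2) C₀ c N ∪ (Icc 1 N).filter (fun n => ¬ Gen P0 n) := by
    intro n hn
    rw [hB, Finset.mem_filter] at hn
    obtain ⟨hnI, x, ⟨hx1, hx2⟩, hx3⟩ := hn
    have hn0 : n ≠ 0 := by
      rw [Finset.mem_Icc] at hnI
      omega
    rw [Finset.mem_union]
    by_cases hG : Gen P0 n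
    · left
      rw [badY, Finset.mem_filter]
      refine ⟨hnI, x, hx1, hx2, ?_⟩
      have hNx : (N : ℝ) ≤ x := by
        refine le_trans ?_ hx1
        calc (N : ℝ) = (N : ℝ) ^ (1 : ℝ) := (Real.rpow_one _).symm
          _ ≤ _ := Real.rpow_le_rpow_of_exponent_le hN1 hC₀.le
      have hx0x : x0 ≤ x := hA3.trans (by exact_mod_cast hNx)
      rw [gp_eqR W₀ D r hn0] at hx3
      exact hcore n hn0 hG x hx0x hx3
    · right
      rw [Finset.mem_filter]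
      exact ⟨hnI, hG⟩
  have h4 := (card_le_card hsub).trans (card_union_le _ _)
  have h5 : (#B : ℝ) ≤ (#(badY d (ε / 2) C₀ c N) : ℝ) +
      (#((Icc 1 N).filter (fun n => ¬ Gen P0 n)) : ℝ) := by
    exact_mod_cast h4
  have h6 : (N : ℝ) ^ θ' ≤ (N : ℝ) ^ θ / 2 := by
    rw [le_div_iff₀ (by norm_num : (0 : ℝ) < 2)]
    calc (N : ℝ) ^ θ' * 2 ≤ (N : ℝ) ^ θ' * (N : ℝ) ^ (θ - θ') := by gcongr
      _ = (N : ℝ) ^ θ := by
          rw [← Real.rpow_add hN0]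
          ring_nf
  have h7 : K * (√(N : ℝ) * (1 + Real.log N)) ≤ (N : ℝ) ^ θ / 2 := by
    have h8 : 1 + Real.log N ≤ 2 * (N : ℝ) ^ s := by
      have : (1 : ℝ) ≤ (N : ℝ) ^ s := Real.one_le_rpow hN1 hs0.le
      linarith
    have h9 : K ≤ (N : ℝ) ^ s / 4 := by linarith
    have h10 : 0 ≤ 1 + Real.log N := by
      have := Real.log_nonneg hN1
      linarith
    calc K * (√(N : ℝ) * (1 + Real.log N))
        ≤ ((N : ℝ) ^ s / 4) * (√(N : ℝ) * (2 * (N : ℝ) ^ s)) := by gcongr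
      _ = (N : ℝ) ^ θ / 2 := by
          rw [Real.sqrt_eq_rpow]
          have : (N : ℝ) ^ θ = (N : ℝ) ^ s * (N : ℝ) ^ (1 / 2 : ℝ) * (N : ℝ) ^ s := by
            rw [← Real.rpow_add hN0, ← Real.rpow_add hN0]
            congr 1
            rw [hs]
            ring
          rw [this]
          ring
  linarith

end Pool.Agent.Results.MP_48b1c3_nt.FewExceptions
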