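import Mathlib
import Pool.Agent.W171.LG.CoreR
import Pool.Agent.W171.EP.PrimesAll

set_option autoImplicit false

/-! # Lenstra's density for the groups `⟨W₀, D (l q) ^ r⟩`, `q` prime

Let `0 < α < 1 / 4`, `1 / 2 + 2 α < θ < 1` and `C₀ > 1` with `θ (1 - θ) < C₀ (2 θ - 1)` (any `C₀ > 1` if
`θ ≥ 0.6181`).  For every finite Galois extension `F / ℚ`, every conjugation-stable `C`, every finitely
generated `W₀ ≤ ℚˣ`, every `k ≥ 1`, every nonzero rational `D`, every `r ≥ 1` such that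
`ℓ ^ (ν_ℓ(k) + 1)` divides `r` for all primes `ℓ ∣ r` (every `r` if `k = 1`; `r = 1` for every `k`),
every `ε > 0`, all large `y` and EVERY integer `l` with `1 ≤ l ≤ exp (√y)`: all but at most `y ^ θ` of
the primes `q ≤ y` satisfy, with `W = ⟨W₀, D (l q) ^ r⟩`, `|S(x) - δ(F, C, W, k) π(x)| ≤ ε π(x)` for
EVERY `x` with `y ^ C₀ ≤ x ≤ exp (y ^ α)`, where `S(x)` is the number of primes up to `x` in the set
of Q1 and `δ` is Lenstra's density.

Libraries: helper401 (density theorem of Chebotarev), helper386, helper771, helper981, helper730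
(large sieve, local counts). -/

namespace Pool.Agent.Results.MP_48b1c3_nt.PrimeMultiples

open NumberField Finset Filter Classical
open Pool.Agent.W171.EP (badG primesAll)
open Pool.Agent.W171.LG (coreR Gen Sc tW DR gp_eqR)
open Pool.Agent.H771R4.SE (cntE Dat)

/-- the number of primes `q ≤ x` in the set of Q1 -/
noncomputable def S (F : IntermediateField ℚ (AlgebraicClosure ℚ)) [NumberField F]
    (C : Set (F ≃ₐ[ℚ] F)) (W : Subgroup ℚˣ) (k x : ℕ) : ℕ :=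
  Nat.card {q : ℕ // q ≤ x ∧ q.Prime ∧
    (∃ σ ∈ C, ∃ Q : Ideal (𝓞 F), Q.IsPrime ∧
        Q.comap (algebraMap ℤ (𝓞 F)) = Ideal.span {(q : ℤ)} ∧
        ∀ a b : 𝓞 F, (b : F) = σ (a : F) → b - a ^ q ∈ Q) ∧
    (∀ w ∈ W, padicValRat q (w : ℚ) = 0) ∧
    (Subgroup.closure {u : (ZMod q)ˣ | ∃ w ∈ W,
        (((w : ℚ).num : ℤ) : ZMod q) = (u : ZMod q) * (((w : ℚ).den : ℕ) : ZMod q)}).index ∣ k}

/-- Lenstra's density -/
noncomputable def δ (F : IntermediateField ℚ (AlgebraicClosure ℚ)) [NumberField F]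
    (C : Set (F ≃ₐ[ℚ] F)) (W : Subgroup ℚˣ) (k : ℕ) : ℝ :=
  ∑' n : ℕ, (ArithmeticFunction.moebius n : ℝ) *
    (Nat.card {σ : F ≃ₐ[ℚ] F // σ ∈ C ∧ ∀ y : F,
        (y : AlgebraicClosure ℚ) ∈ IntermediateField.adjoin ℚ
          {z : AlgebraicClosure ℚ | ∃ w ∈ W,
            z ^ (∏ l ∈ n.primeFactors, l ^ (k.factorization l + 1)) =
              algebraMap ℚ (AlgebraicClosure ℚ) (w : ℚ)} → σ y = y} : ℝ) /
    (Module.finrank ℚ ↥(F ⊔ IntermediateField.adjoin ℚ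
          {z : AlgebraicClosure ℚ | ∃ w ∈ W,
            z ^ (∏ l ∈ n.primeFactors, l ^ (k.factorization l + 1)) =
              algebraMap ℚ (AlgebraicClosure ℚ) (w : ℚ)}) : ℝ)

lemma card_le_log {l : ℕ} (hl : 1 ≤ l) : (l.primeFactors.card : ℝ) ≤ 2 * Real.log l := by
  have h1 : 2 ^ l.primeFactors.card ≤ l := by
    calc 2 ^ l.primeFactors.card = ∏ _p ∈ l.primeFactors, 2 := by rw [Finset.prod_const]
      _ ≤ ∏ p ∈ l.primeFactors, p :=
          Finset.prod_le_prod' fun p hp => (Nat.prime_of_mem_primeFactors hp).two_le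
      _ ≤ l := Nat.le_of_dvd (by omega) (Nat.prod_primeFactors_dvd l)
  have h2 : ((2 : ℝ) ^ l.primeFactors.card) ≤ l := by exact_mod_cast h1
  have h3 := Real.log_le_log (by positivity) h2
  rw [Real.log_pow] at h3
  have h4 : (1 / 2 : ℝ) < Real.log 2 := by
    have := Real.log_two_gt_d9
    linarith
  have h5 : (0 : ℝ) ≤ l.primeFactors.card := Nat.cast_nonneg _
  nlinarith

theorem result (α θ C₀ : ℝ) (hα : 0 < α) (hθ : 1 / 2 + 2 * α < θ) (hθ1 : θ < 1) (hC₀ : 1 < C₀)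
    (hCθ : θ * (1 - θ) < C₀ * (2 * θ - 1))
    (F : IntermediateField ℚ (AlgebraicClosure ℚ)) [NumberField F] [IsGalois ℚ F]
    (C : Set (F ≃ₐ[ℚ] F)) (W₀ : Subgroup ℚˣ) (k : ℕ) (D : ℚˣ) (r : ℕ)
    (hC : ∀ σ ∈ C, ∀ τ : F ≃ₐ[ℚ] F, τ * σ * τ⁻¹ ∈ C) (hW₀ : W₀.FG) (hk : 0 < k)
    (hr : 0 < r) (hrk : ∀ l : ℕ, l.Prime → l ∣ r → l ^ (k.factorization l + 1) ∣ r)
    (ε : ℝ) (hε : 0 < ε) :
    ∃ y₀ : ℕ, ∀ y : ℕ, y₀ ≤ y → ∀ l : ℕ, 1 ≤ l → Real.log l ≤ √(y : ℝ) →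
      (((Finset.range (y + 1)).filter (fun q : ℕ => q.Prime ∧
        ∃ x : ℕ, ((y : ℝ) ^ C₀ ≤ x ∧ (x : ℝ) ≤ Real.exp ((y : ℝ) ^ α)) ∧
          ε * (Nat.primeCounting x : ℝ) <
            |(S F C (W₀ ⊔ Subgroup.closure {w : ℚˣ | (w : ℚ) = (D : ℚ) * ((l * q : ℕ) : ℚ) ^ r}) k x : ℝ) -
              δ F C (W₀ ⊔ Subgroup.closure {w : ℚˣ | (w : ℚ) = (D : ℚ) * ((l * q : ℕ) : ℚ) ^ r}) k *
                (Nat.primeCounting x : ℝ)|)).card : ℝ) ≤ (y : ℝ) ^ θ := by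
  obtain ⟨θ', hθ', hall⟩ := primesAll α θ C₀ hα hθ hθ1 hC₀ hCθ
  obtain ⟨d, hd⟩ := coreR F C W₀ k D hC hW₀ hk.ne' hr hrk
  obtain ⟨P0, x0, hcore⟩ := hd ε hε
  obtain ⟨y₁, hy₁⟩ := hall d (ε / 2) (by positivity)
  set s : ℝ := θ - 1 / 2 with hs
  have hs0 : 0 < s := by
    rw [hs]
    linarith
  have e1 : ∀ᶠ y : ℝ in atTop, 4 ≤ y ^ (θ - θ') :=
    (tendsto_rpow_atTop (by linarith)).eventually_ge_atTop _
  have e2 : ∀ᶠ y : ℝ in atTop, 2 * (P0 + 3 : ℝ) ≤ y ^ s :=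
    (tendsto_rpow_atTop hs0).eventually_ge_atTop _
  obtain ⟨y₂, hy₂⟩ := eventually_atTop.1 ((tendsto_natCast_atTop_atTop (R := ℝ)).eventually
    (e1.and e2))
  refine ⟨max (max y₁ y₂) (max x0 2), fun y hy l hl hll => ?_⟩
  have hA1 : y₁ ≤ y := (le_max_left _ _).trans ((le_max_left _ _).trans hy)
  have hA2 : y₂ ≤ y := (le_max_right _ _).trans ((le_max_left _ _).trans hy)
  have hA3 : x0 ≤ y := (le_max_left _ _).trans ((le_max_right _ _).trans hy)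
  have hA4 : 2 ≤ y := (le_max_right _ _).trans ((le_max_right _ _).trans hy)
  have hy2 : (2 : ℝ) ≤ y := by exact_mod_cast hA4
  have hy0 : (0 : ℝ) < y := by linarith
  have hy1 : (1 : ℝ) ≤ y := by linarith
  obtain ⟨k1, k2⟩ := hy₂ y hA2
  have k4 := hy₁ y hA1 l hl hll
  set B := (Finset.range (y + 1)).filter (fun q : ℕ => q.Prime ∧
        ∃ x : ℕ, ((y : ℝ) ^ C₀ ≤ x ∧ (x : ℝ) ≤ Real.exp ((y : ℝ) ^ α)) ∧
          ε * (Nat.primeCounting x : ℝ) <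
            |(S F C (W₀ ⊔ Subgroup.closure {w : ℚˣ | (w : ℚ) = (D : ℚ) * ((l * q : ℕ) : ℚ) ^ r}) k x : ℝ) -
              δ F C (W₀ ⊔ Subgroup.closure {w : ℚˣ | (w : ℚ) = (D : ℚ) * ((l * q : ℕ) : ℚ) ^ r}) k *
                (Nat.primeCounting x : ℝ)|) with hB
  have hsub : B ⊆ badG d (ε / 2) (C₀ * Real.log y) ((y : ℝ) ^ α) l y ∪
      (Finset.range (P0 + 1) ∪ l.primeFactors) := by
    intro q hq
    rw [hB, Finset.mem_filter] at hq
    obtain ⟨hqr, hqp, x, ⟨hx1, hx2⟩, hx3⟩ := hq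
    rw [Finset.mem_union, Finset.mem_union]
    by_cases hqP : q ≤ P0
    · right; left
      rw [Finset.mem_range]
      omega
    by_cases hql : q ∣ l
    · right; right
      rw [Nat.mem_primeFactors]
      exact ⟨hqp, hql, by omega⟩
    left
    have hn0 : l * q ≠ 0 := Nat.mul_ne_zero (by omega) hqp.ne_zero
    have hG : Gen P0 (l * q) := by
      refine ⟨q, hqp, by omega, Dvd.intro_left l rfl, fun h => ?_⟩
      rw [pow_two] at h
      exact hql (Nat.dvd_of_mul_dvd_mul_right hqp.pos h)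
    have hNx : (y : ℝ) ≤ x := by
      refine le_trans ?_ hx1
      calc (y : ℝ) = (y : ℝ) ^ (1 : ℝ) := (Real.rpow_one _).symm
        _ ≤ _ := Real.rpow_le_rpow_of_exponent_le hy1 hC₀.le
    have hx0x : x0 ≤ x := hA3.trans (by exact_mod_cast hNx)
    rw [gp_eqR W₀ D r hn0] at hx3
    have hx0 : (0 : ℝ) < x := lt_of_lt_of_le (by positivity) hx1
    rw [badG, Finset.mem_filter]
    refine ⟨?_, x, ?_, ?_, hcore (l * q) hn0 hG x hx0x hx3⟩
    · rw [Pool.Agent.H386R2.Artin.PP, Finset.mem_filter]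
      exact ⟨hqr, hqp⟩
    · rw [← Real.log_rpow hy0]
      exact Real.log_le_log (by positivity) hx1
    · rwa [Real.log_le_iff_le_exp hx0]
  have h4 := (card_le_card hsub).trans ((card_union_le _ _).trans
    (Nat.add_le_add_left (card_union_le _ _) _))
  rw [card_range] at h4
  have h5 : (#B : ℝ) ≤ (#(badG d (ε / 2) (C₀ * Real.log y) ((y : ℝ) ^ α) l y) : ℝ) +
      (((P0 : ℝ) + 1) + (l.primeFactors.card : ℝ)) := by
    exact_mod_cast h4
  have h6 : 2 * (y : ℝ) ^ θ' ≤ (y : ℝ) ^ θ / 2 := by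
    rw [le_div_iff₀ (by norm_num : (0 : ℝ) < 2)]
    calc 2 * (y : ℝ) ^ θ' * 2 = (y : ℝ) ^ θ' * 4 := by ring
      _ ≤ (y : ℝ) ^ θ' * (y : ℝ) ^ (θ - θ') := by gcongr
      _ = (y : ℝ) ^ θ := by
          rw [← Real.rpow_add hy0]
          ring_nf
  have h7 : ((P0 : ℝ) + 1) + (l.primeFactors.card : ℝ) ≤ (y : ℝ) ^ θ / 2 := by
    have h8 := card_le_log hl
    have h9 : (1 : ℝ) ≤ √(y : ℝ) := Real.one_le_sqrt.2 hy1
    have h10 : (0 : ℝ) ≤ P0 := Nat.cast_nonneg _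
    calc ((P0 : ℝ) + 1) + (l.primeFactors.card : ℝ) ≤ (P0 + 1) * √(y : ℝ) + 2 * √(y : ℝ) := by
          nlinarith
      _ = (P0 + 3) * √(y : ℝ) := by ring
      _ ≤ ((y : ℝ) ^ s / 2) * √(y : ℝ) := by
          gcongr
          linarith
      _ = (y : ℝ) ^ θ / 2 := by
          rw [Real.sqrt_eq_rpow]
          have : (y : ℝ) ^ θ = (y : ℝ) ^ s * (y : ℝ) ^ (1 / 2 : ℝ) := by
            rw [← Real.rpow_add hy0]
            congr 1
            rw [hs]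
            ring
          rw [this]
          ring
  linarith

end Pool.Agent.Results.MP_48b1c3_nt.PrimeMultiples
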